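import Mathlib
import Pool.Agent.LNG.Fi2

/-!
Silverman's conjecture on lower bounds for canonical heights of wandering points (dynamical Lang
conjecture), uniformly over all number fields of bounded degree, for maps whose bad reduction is
concentrated: in particular for maps with at most `t` primes that are not of potentially good
reduction.
-/

namespace Pool.Agent.Results.MP_0b6722_nt.ConcentratedLang

open Pool.Agent.LNG NumberField

/-- `d ≥ 2`, `D`, `t`, `δ > 0`, `M` coordinates for the moduli height.  There is `κ > 0` such that
for every number field `K` of degree at most `D`, every `φ ∈ K(x)` of degree `d` with a set `T` of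
at most `t` finite places satisfying (H) = `Conc δ φ T`, and every wandering `P ∈ P^1(K)`, some
conjugate `φ^A`, `A ∈ GL_2(K)`, satisfies
`ĥ_φ(P) ≥ κ max (log N(R_φ), h_M(⟨φ⟩), 1 + h(φ^A))`.
(H) holds if `T` consists of all places that are not of potentially good reduction (the left side
of (H) is then an empty sum). -/
theorem result (d : ℕ) (hd : 2 ≤ d) (D t : ℕ) (δ : ℝ) (hδ : 0 < δ) (M : ModInt d) :
    ∃ κ : ℝ, 0 < κ ∧ ∀ (K : Type) [Field K] [NumberField K], Module.finrank ℚ K ≤ D →
      ∀ F : Coef K d, res F ≠ 0 → ∀ T : Finset (FinitePlace K), T.card ≤ t → Conc δ F T →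
        ∀ P : Fin 2 → K, P ≠ 0 → ¬ Preper F P →
          ∃ A : Matrix (Fin 2) (Fin 2) K, A.det ≠ 0 ∧
            κ * max (max (Real.log (Ideal.absNorm (minRes F))) (modH M F))
              (1 + absHeight (conj F A)) ≤ canHeight F P :=
  final2 d hd D t δ hδ M

end Pool.Agent.Results.MP_0b6722_nt.ConcentratedLang
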