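import Mathlib
import Pool.Agent.LNG2.Pts

/-!
The inequality of Silverman's conjecture, with a constant that does not depend on the number of
primes of bad reduction, holds for all but few points of the projective line, for all rational maps
over number fields of bounded degree.
-/

namespace Pool.Agent.Results.MP_0b6722_nt.FewExceptions

open Pool.Agent.LNG NumberField

open scoped LinearAlgebra.Projectivization

/-- `d ≥ 2`, `D`, `M` coordinates for the moduli height.  There is `C ≥ 1` such that for every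
number field `K` of degree at most `D`, every `φ ∈ K(x)` of degree `d` with `s` primes that are not
of potentially good reduction, and every `0 < θ ≤ 1`, all but at most
`C^(θ s + 1) (1/θ) log(2/θ)` points `P ∈ P^1(K)` satisfy
`ĥ_φ(P) ≥ (θ/C) max (log N(R_φ), h_M(⟨φ⟩), 1 + h(φ^A))` for some conjugate `φ^A`,
`A ∈ GL_2(K)`. -/
theorem result (d : ℕ) (hd : 2 ≤ d) (D : ℕ) (M : ModInt d) :
    ∃ C : ℝ, 1 ≤ C ∧ ∀ (K : Type) [Field K] [NumberField K], Module.finrank ℚ K ≤ D →
      ∀ F : Coef K d, res F ≠ 0 → (badPl F).Finite ∧ ∀ θ : ℝ, 0 < θ → θ ≤ 1 →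
        {P : ℙ K (Fin 2 → K) | ¬ ∃ A : Matrix (Fin 2) (Fin 2) K, A.det ≠ 0 ∧
          θ / C * max (max (Real.log (Ideal.absNorm (minRes F))) (modH M F))
            (1 + absHeight (conj F A)) ≤ canHeight F P.rep}.Finite ∧
        ({P : ℙ K (Fin 2 → K) | ¬ ∃ A : Matrix (Fin 2) (Fin 2) K, A.det ≠ 0 ∧
          θ / C * max (max (Real.log (Ideal.absNorm (minRes F))) (modH M F))
            (1 + absHeight (conj F A)) ≤ canHeight F P.rep}.ncard : ℝ) ≤
          C ^ (θ * (badPl F).ncard + 1) * (1 / θ * Real.log (2 / θ)) := by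
  classical
  obtain ⟨C, hC, h⟩ := LNG2.main_all d hd D M
  refine ⟨C, hC, ?_⟩
  intro K _ _ hK F hF
  refine ⟨badPl_finite (by omega) hF, ?_⟩
  intro θ hθ0 hθ1
  obtain ⟨h1, -, -, -⟩ := h K hK F hF
  set E : Set (ℙ K (Fin 2 → K)) := {P | ¬ ∃ A : Matrix (Fin 2) (Fin 2) K, A.det ≠ 0 ∧
          θ / C * max (max (Real.log (Ideal.absNorm (minRes F))) (modH M F))
            (1 + absHeight (conj F A)) ≤ canHeight F P.rep} with hE
  have key : ∀ S : Finset (ℙ K (Fin 2 → K)), (S : Set _) ⊆ E →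
      (S.card : ℝ) ≤ C ^ (θ * (badPl F).ncard + 1) * (1 / θ * Real.log (2 / θ)) := by
    intro S hS
    refine h1 θ hθ0 hθ1 S ?_
    intro P hP A hA
    by_contra hcon
    exact hS hP ⟨A, hA, not_lt.mp hcon⟩
  have hfin : E.Finite := by
    by_contra hinf
    obtain ⟨S, hS, hcard⟩ := Set.Infinite.exists_subset_card_eq hinf
      (⌊C ^ (θ * (badPl F).ncard + 1) * (1 / θ * Real.log (2 / θ))⌋₊ + 1)
    have h2 := key S hS
    rw [hcard] at h2
    have h3 := Nat.lt_floor_add_one
      (C ^ (θ * ((badPl F).ncard : ℝ) + 1) * (1 / θ * Real.log (2 / θ)))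
    push_cast at h2
    linarith
  refine ⟨hfin, ?_⟩
  rw [Set.ncard_eq_toFinset_card _ hfin]
  exact key _ (by rw [hfin.coe_toFinset])

end Pool.Agent.Results.MP_0b6722_nt.FewExceptions
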