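import Mathlib
import Pool.Agent.LNG2.Pts

/-!
Lower bounds for canonical heights of wandering points of all rational maps over number fields of
bounded degree: the inequality of Silverman's conjecture with an explicit loss in terms of the
number of primes that are not of potentially good reduction, or of the norm of the minimal
resultant.
-/

namespace Pool.Agent.Results.MP_0b6722_nt.SLogSLang

open Pool.Agent.LNG NumberField

/-- `d ≥ 2`, `D`, `M` coordinates for the moduli height.  There is `C > 0` such that for every
number field `K` of degree at most `D` and every `φ ∈ K(x)` of degree `d`, the set of the primes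
of `K` at which `φ` is not of potentially good reduction is finite, and, `s` being their number,
for every wandering `P ∈ P^1(K)` some conjugate `φ^A`, `A ∈ GL_2(K)`, satisfies
`ĥ_φ(P) ≥ exp(-C min((s+1) log(s+2), 1 + log N(R_φ))) max (log N(R_φ), h_M(⟨φ⟩), 1 + h(φ^A))`. -/
theorem result (d : ℕ) (hd : 2 ≤ d) (D : ℕ) (M : ModInt d) :
    ∃ C : ℝ, 0 < C ∧ ∀ (K : Type) [Field K] [NumberField K], Module.finrank ℚ K ≤ D →
      ∀ F : Coef K d, res F ≠ 0 → (badPl F).Finite ∧
        ∀ P : Fin 2 → K, P ≠ 0 → ¬ Preper F P →
          ∃ A : Matrix (Fin 2) (Fin 2) K, A.det ≠ 0 ∧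
            Real.exp (-(C * min ((((badPl F).ncard : ℝ) + 1) * Real.log ((badPl F).ncard + 2))
                (1 + Real.log (Ideal.absNorm (minRes F))))) *
              max (max (Real.log (Ideal.absNorm (minRes F))) (modH M F))
                (1 + absHeight (conj F A)) ≤ canHeight F P := by
  obtain ⟨C, hC, h⟩ := LNG2.main_all d hd D M
  refine ⟨C, by linarith, ?_⟩
  intro K _ _ hK F hF
  refine ⟨badPl_finite (by omega) hF, ?_⟩
  intro P hP hw
  obtain ⟨-, h2, h3, -⟩ := h K hK F hF
  rcases min_choice ((((badPl F).ncard : ℝ) + 1) * Real.log ((badPl F).ncard + 2))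
    (1 + Real.log (Ideal.absNorm (minRes F))) with hm | hm
  · rw [hm]
    exact h2 P hP hw
  · rw [hm]
    exact h3 P hP hw

end Pool.Agent.Results.MP_0b6722_nt.SLogSLang
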